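import Pool.Agent.H75.GG.Targets2

/-!
# Row ERH: the errors of the quantum algorithm
-/

set_option autoImplicit false

namespace Pool.Agent.H84.GG

open Finset Filter Pool.Agent.H6.NB Pool.Agent.H70.OQ Pool.Agent.H75.GS Pool.Agent.H75.GG

/-- telescoping sum -/
theorem geo8 (a b : ℕ) (h : a ≤ b) : ∑ n ∈ Ico a b, (1 : ℝ) / 2 ^ (n / 8) =
    (16 - (a % 8 : ℕ)) / 2 ^ (a / 8) - (16 - (b % 8 : ℕ)) / 2 ^ (b / 8) := by
  induction b, h using Nat.le_induction with
  | base => simp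
  | succ b hab ih =>
    rw [Finset.sum_Ico_succ_top hab, ih]
    by_cases hb : b % 8 = 7
    · have e1 : (b + 1) % 8 = 0 := by omega
      have e2 : (b + 1) / 8 = b / 8 + 1 := by omega
      rw [e1, e2, hb, pow_succ]
      push_cast
      field_simp
      ring
    · have e1 : (b + 1) % 8 = b % 8 + 1 := by omega
      have e2 : (b + 1) / 8 = b / 8 := by omega
      rw [e1, e2]
      push_cast
      field_simp
      ring

theorem geo8_le (a b : ℕ) (ha : 32 ≤ a) : ∑ n ∈ Ico a b, (1 : ℝ) / 2 ^ (n / 8) ≤ 1 := by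
  rcases le_or_gt a b with h | h
  · rw [geo8 a b h]
    have h1 : (0 : ℝ) ≤ (16 - (b % 8 : ℕ)) / 2 ^ (b / 8) := by
      apply div_nonneg
      · have : b % 8 ≤ 7 := by omega
        have : ((b % 8 : ℕ) : ℝ) ≤ 7 := by exact_mod_cast this
        linarith
      · positivity
    have h2 : (16 - ((a % 8 : ℕ) : ℝ)) / 2 ^ (a / 8) ≤ 1 := by
      rw [div_le_one (by positivity)]
      have : (2 : ℝ) ^ 4 ≤ 2 ^ (a / 8) := pow_le_pow_right₀ (by norm_num) (by omega)
      have h3 : (0 : ℝ) ≤ ((a % 8 : ℕ) : ℝ) := by positivity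
      linarith
    linarith
  · rw [Finset.Ico_eq_empty (by omega), Finset.sum_empty]
    norm_num

theorem hit_mono_sum {ι : Type*} (S : Sampler) (O : List Bool → Bool) (E : Set (List Bool))
    (s : Finset ι) (F : ι → Set (List Bool)) (h : ∀ z, S.out z ∈ E → ∃ i ∈ s, S.out z ∈ F i) :
    S.hit O E ≤ ∑ i ∈ s, S.hit O (F i) := by
  classical
  unfold Sampler.hit
  rw [Finset.sum_comm]
  refine Finset.sum_le_sum fun z _ => ?_
  by_cases hz : S.out z ∈ E
  · obtain ⟨i, hi, hzi⟩ := h z hz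
    rw [if_pos hz]
    refine le_trans (le_of_eq ?_) (Finset.single_le_sum (f := fun i => if S.out z ∈ F i then
      ‖S.alg.state O S.alg.T z‖ ^ 2 else 0) (fun r _ => by
        split_ifs <;> positivity) hi)
    rw [if_pos hzi]
  · rw [if_neg hz]
    refine Finset.sum_nonneg fun r _ => ?_
    split_ifs <;> positivity

theorem hit_empty (S : Sampler) (O : List Bool → Bool) : S.hit O ∅ = 0 := by
  unfold Sampler.hit
  simp

theorem pf_ERH (hYEG : T_YEG) (hCOD : Pool.Agent.H6.NB.T_COD) (hLCG : T_LCG) (hSEE : T_SEE)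
    (hHYE : T_HYE) : T_ERH := by
  classical
  intro κ V S g G ω i j d hloc hacc hD hS hg
  obtain ⟨-, -, -, hB, -, -⟩ := hLCG G ω hloc
  obtain ⟨-, -, hs3, hs4, -⟩ := hSEE G ω
  obtain ⟨l0, hl0⟩ := eventually_atTop.1 hacc
  obtain ⟨n1, hn1⟩ := eventually_atTop.1 hS
  obtain ⟨n2, hn2⟩ := eventually_atTop.1 hg
  obtain ⟨n3, hn3⟩ : ∃ n3, n3 = max (max n1 n2) 32 := ⟨_, rfl⟩
  filter_upwards [eventually_ge_atTop l0, eventually_ge_atTop G.n0,
    eventually_ge_atTop (∑ n ∈ range n3, G.H n)] with m hm1 hm2 hm3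
  have hHn : ∀ n, m < G.H n → n3 ≤ n := by
    intro n hn
    by_contra hcon
    have := Finset.single_le_sum (f := fun n => G.H n) (fun _ _ => Nat.zero_le _)
      (mem_range.2 (not_le.1 hcon))
    omega
  have hlen : ∀ y : List Bool, y.length ≤ (inst (V i).c i y).length := by
    intro y
    unfold inst
    rw [hCOD.2]
    omega
  have hDec : ∀ s : List Bool, G.n0 ≤ s.length → Dec (seed ω) s := by
    intro s hs
    have := hD s hs
    unfold DcS at this
    unfold Dec
    rw [hs3 s]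
    have e : (fun i : Fin (ns s) => cpy (seed ω) s i) = cfP ω s := by
      funext i v
      exact hs4 s i v
    rw [e]
    exact this
  have hE : ∀ y : List Bool, y ∈ Err (V i) i (wld ω) → m ≤ y.length → ∃ n, m < G.H n ∧
      ∃ k : Fin (G.r n), inst (V i).c i y ∈ Enk ω n k := by
    intro y hy hmy
    have hsy := hlen y
    have hY := hYEG _ _ _ (inst (V i).c i y) hB (hDec _ (by omega))
    have hV := hl0 (inst (V i).c i y).length (by omega) y (wld ω) le_rfl
    have hbad : ¬ (ign G.acc (Spt ω) (inst (V i).c i y) (wld ω) ↔ G.acc (inst (V i).c i y) (wld ω)) := by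
      intro hcon
      have hc2 := hcon.trans hV.symm
      exact hy ⟨fun h => hY.1 (hc2.2 h), fun h => hY.2 fun h' => h (hc2.1 h')⟩
    obtain ⟨n, k, hn, hsn, hk⟩ := hHYE G ω (wld ω) _ hloc hbad
    exact ⟨n, by omega, k, hsn, hk⟩
  -- the sets
  have hch : ∀ z : (S j m).alg.basis, ∃ n, (S j m).out z ∈ {x | x ∈ Err (V i) i (wld ω) ∧
      m ≤ x.length} → (m < G.H n ∧ ∃ k : Fin (G.r n), inst (V i).c i ((S j m).out z) ∈ Enk ω n k) := by
    intro z
    by_cases hz : (S j m).out z ∈ {x | x ∈ Err (V i) i (wld ω) ∧ m ≤ x.length}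
    · obtain ⟨n, hn⟩ := hE _ hz.1 hz.2
      exact ⟨n, fun _ => hn⟩
    · exact ⟨0, fun h => absurd h hz⟩
  choose rr hrr using hch
  obtain ⟨R, hR⟩ : ∃ R, R = (univ : Finset (S j m).alg.basis).sup rr + 1 := ⟨_, rfl⟩
  have hlt : ∀ z, rr z < R := fun z => by
    rw [hR]
    exact Nat.lt_succ_of_le (Finset.le_sup (mem_univ z))
  have h4 : (S j m).hit (ext V d (wld ω)) {x | x ∈ Err (V i) i (wld ω) ∧ m ≤ x.length} ≤
      ∑ n ∈ Ico n3 R, (S j m).hit (ext V d (wld ω)) {y | m < G.H n ∧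
        ∃ k : Fin (G.r n), inst (V i).c i y ∈ Enk ω n k} := by
    refine hit_mono_sum _ _ _ _ _ fun z hz => ?_
    have := hrr z hz
    exact ⟨rr z, mem_Ico.2 ⟨hHn _ this.1, hlt z⟩, this⟩
  have h5 : ∀ n ∈ Ico n3 R, (S j m).hit (ext V d (wld ω)) {y | m < G.H n ∧
        ∃ k : Fin (G.r n), inst (V i).c i y ∈ Enk ω n k} ≤
      1 / 2 ^ g j m * ((1 : ℝ) / 2 ^ (n / 8)) := by
    intro n hn
    have hn' := (mem_Ico.1 hn).1
    by_cases hmn : m < G.H n
    · have hn1' := hn1 n (by omega)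
      have hn2' := hn2 n (by omega)
      have h6 : (S j m).hit (ext V d (wld ω)) {y | m < G.H n ∧
          ∃ k : Fin (G.r n), inst (V i).c i y ∈ Enk ω n k} ≤
          ∑ k : Fin (G.r n), (S j m).hit (ext V d (wld ω)) {y | inst (V i).c i y ∈ Enk ω n k} := by
        refine hit_mono_sum _ _ _ _ _ fun z hz => ?_
        obtain ⟨_, k, hk⟩ := hz
        exact ⟨k, mem_univ _, hk⟩
      refine h6.trans ((Finset.sum_le_sum fun k _ => hn1' k m hmn).trans ?_)
      rw [Finset.sum_const, card_univ, Fintype.card_fin, nsmul_eq_mul]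
      have h7 : ((G.r n : ℕ) : ℝ) ≤ 2 ^ (n / 32) := by exact_mod_cast hn2'.2
      have h8 := hn2'.1 m hmn
      have h9 : (2 : ℝ) ^ (n / 32) * 2 ^ g j m * 2 ^ (n / 8) ≤ 2 ^ (n / 4) := by
        rw [← pow_add, ← pow_add]
        exact pow_le_pow_right₀ (by norm_num) (by omega)
      have h10 : (0 : ℝ) < 2 ^ (n / 4) := by positivity
      have h11 : (0 : ℝ) < 2 ^ g j m := by positivity
      have h12 : (0 : ℝ) < 2 ^ (n / 8) := by positivity
      rw [mul_one_div, one_div_mul_one_div, div_le_div_iff₀ h10 (by positivity), one_mul]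
      calc (G.r n : ℝ) * (2 ^ g j m * 2 ^ (n / 8)) ≤ 2 ^ (n / 32) * (2 ^ g j m * 2 ^ (n / 8)) :=
            mul_le_mul_of_nonneg_right h7 (by positivity)
        _ = 2 ^ (n / 32) * 2 ^ g j m * 2 ^ (n / 8) := by ring
        _ ≤ _ := h9
    · have : {y | m < G.H n ∧ ∃ k : Fin (G.r n), inst (V i).c i y ∈ Enk ω n k} = ∅ := by
        ext y
        simp only [Set.mem_setOf_eq, Set.mem_empty_iff_false, iff_false]
        exact fun h => hmn h.1
      rw [this, hit_empty]
      positivity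
  refine h4.trans ((Finset.sum_le_sum h5).trans ?_)
  rw [← Finset.mul_sum]
  refine (mul_le_mul_of_nonneg_left (geo8_le n3 R (by omega)) (by positivity)).trans ?_
  rw [mul_one]

end Pool.Agent.H84.GG
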